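import Pool.Agent.H86.SvC

set_option autoImplicit false

namespace Pool.Agent.Results.MP_20f07a_co.Quadratic

open Pool.Agent.H86.Surv

theorem result : ∃ (V : Type) (G : SimpleGraph V), Infinite V ∧ G.Connected ∧
    (∀ v, (G.neighborSet v).Finite) ∧ VertexTransitive G ∧ survival G = 2 ∧ ¬ LinearGrowth G := by
  refine ⟨X, Gr, inferInstance, conn, fun v => ?_, vt, survival_eq, not_linear⟩
  refine (Set.toFinite {n1 v, n2 v, n3 v, n4 v}).subset fun u hu => ?_
  exact hu

end Pool.Agent.Results.MP_20f07a_co.Quadratic
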